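import Mathlib
import Pool.Agent.helper7.IG.Basic

set_option autoImplicit false

/-! # ig:NB (MP_ebc808_nt): automorphisms preserve neighbours -/

open Polynomial

noncomputable section

namespace Pool.Agent.helper7.IG

/-- `cl` as a homomorphism on `MM` -/
def nb_cl (Φ : Frame) : MM →ₐ[kk] Φ.A where
  toFun F := Φ.cl F
  map_one' := Φ.cl_one
  map_mul' F G := Φ.cl_mul _ F.2 _ G.2
  map_zero' := Φ.cl_zero
  map_add' F G := Φ.cl_add _ F.2 _ G.2
  commutes' c := Φ.cl_alg c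

theorem nb_cl_apply (Φ : Frame) (F : LL) (hF : F ∈ MM) : nb_cl Φ ⟨F, hF⟩ = Φ.cl F := rfl

/-- factorisation over `LL` at an arbitrary vertex -/
theorem nb_facLL (p : ℕ) (hp0 : p ≠ 0) (Ψ : Polynomial (Polynomial kk)) (ω : kkˣ)
    (hΨ : Ψ.map (Polynomial.aeval (R := kk) (sig p 1 DDk)).toRingHom =
      (X - C (sig (p * p) 1 DDk)) * ∏ j ∈ Finset.range p, (X - C (sig 1 (ω ^ j) DDk)))
    (e : ℕ) (he : e ≠ 0) (x : kkˣ) :
    Ψ.map (Polynomial.aeval (R := kk) (sig (p * e) (x ^ p) DDk)).toRingHom =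
      (X - C (sig (p * (p * e)) ((x ^ p) ^ p) DDk)) *
        ∏ j ∈ Finset.range p, (X - C (sig e (x * ω ^ j) DDk)) := by
  have h := congrArg (Polynomial.map (sig e x).toRingHom) hΨ
  rw [Polynomial.map_map, Polynomial.map_mul, Polynomial.map_prod] at h
  simp only [Polynomial.map_sub, Polynomial.map_X, Polynomial.map_C] at h
  have h1 : ((sig e x).toRingHom.comp (Polynomial.aeval (R := kk) (sig p 1 DDk)).toRingHom) =
      (Polynomial.aeval (R := kk) (sig (p * e) (x ^ p) DDk)).toRingHom := by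
    have h2 : (sig e x).comp (Polynomial.aeval (R := kk) (sig p 1 DDk)) =
        Polynomial.aeval (R := kk) (sig (p * e) (x ^ p) DDk) := by
      ext1
      rw [AlgHom.comp_apply, aeval_X, aeval_X, sig_sig he hp0, one_mul, mul_comm]
    rw [← h2]
    rfl
  rw [h1] at h
  rw [h]
  have h3 : (sig e x).toRingHom (sig (p * p) 1 DDk) = sig (p * (p * e)) ((x ^ p) ^ p) DDk := by
    change sig e x (sig (p * p) 1 DDk) = _
    rw [sig_sig he (mul_ne_zero hp0 hp0), one_mul, ← pow_mul]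
    congr 1
    ring_nf
  rw [h3]
  congr 1
  refine Finset.prod_congr rfl fun j _ => ?_
  have h4 : (sig e x).toRingHom (sig 1 (ω ^ j) DDk) = sig e (x * ω ^ j) DDk := by
    change sig e x (sig 1 (ω ^ j) DDk) = _
    rw [sig_sig he one_ne_zero, mul_one, pow_one, mul_comm]
  rw [h4]

/-- factorisation over `A` at an arbitrary vertex -/
theorem nb_facA (hME : ME_stmt) (Φ : Frame) (p : ℕ) (hp : Odd p)
    (Ψ : Polynomial (Polynomial kk)) (ω : kkˣ)
    (hΨ : Ψ.map (Polynomial.aeval (R := kk) (sig p 1 DDk)).toRingHom =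
      (X - C (sig (p * p) 1 DDk)) * ∏ j ∈ Finset.range p, (X - C (sig 1 (ω ^ j) DDk)))
    (e : ℕ) (he : Odd e) (x : kkˣ) :
    Ψ.map (Polynomial.aeval (R := kk) (Φ.D (p * e, x ^ p))).toRingHom =
      (X - C (Φ.D (p * (p * e), (x ^ p) ^ p))) *
        ∏ j ∈ Finset.range p, (X - C (Φ.D (e, x * ω ^ j))) := by
  have hp0 : p ≠ 0 := by rintro rfl; exact absurd hp (by decide)
  have he0 : e ≠ 0 := by rintro rfl; exact absurd he (by decide)
  have h := nb_facLL p hp0 Ψ ω hΨ e he0 x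
  have hm1 : sig (p * e) (x ^ p) DDk ∈ MM := hME _ _ _ (hp.mul he) DDk_mem
  have hm2 : sig (p * (p * e)) ((x ^ p) ^ p) DDk ∈ MM := hME _ _ _ (hp.mul (hp.mul he)) DDk_mem
  have hm3 : ∀ j, sig e (x * ω ^ j) DDk ∈ MM := fun j => hME _ _ _ he DDk_mem
  have hMM : Ψ.map (Polynomial.aeval (R := kk)
        (⟨sig (p * e) (x ^ p) DDk, hm1⟩ : MM)).toRingHom =
      (X - C (⟨sig (p * (p * e)) ((x ^ p) ^ p) DDk, hm2⟩ : MM)) *
        ∏ j ∈ Finset.range p, (X - C (⟨sig e (x * ω ^ j) DDk, hm3 j⟩ : MM)) := by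
    apply Polynomial.map_injective (algebraMap MM LL) (algebraMap MM LL).injective
    rw [Polynomial.map_map, Polynomial.map_mul, Polynomial.map_prod]
    simp only [Polynomial.map_sub, Polynomial.map_X, Polynomial.map_C]
    have h1 : ((algebraMap MM LL).comp (Polynomial.aeval (R := kk)
        (⟨sig (p * e) (x ^ p) DDk, hm1⟩ : MM)).toRingHom) =
        (Polynomial.aeval (R := kk) (sig (p * e) (x ^ p) DDk)).toRingHom := by
      have h2 : (MM.val).comp (Polynomial.aeval (R := kk)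
          (⟨sig (p * e) (x ^ p) DDk, hm1⟩ : MM)) =
          Polynomial.aeval (R := kk) (sig (p * e) (x ^ p) DDk) := by
        ext1
        rw [AlgHom.comp_apply, aeval_X, aeval_X]
        rfl
      rw [← h2]
      rfl
    rw [h1, h]
    rfl
  have h4 := congrArg (Polynomial.map (nb_cl Φ).toRingHom) hMM
  rw [Polynomial.map_map, Polynomial.map_mul, Polynomial.map_prod] at h4
  simp only [Polynomial.map_sub, Polynomial.map_X, Polynomial.map_C] at h4
  have h5 : ((nb_cl Φ).toRingHom.comp (Polynomial.aeval (R := kk)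
      (⟨sig (p * e) (x ^ p) DDk, hm1⟩ : MM)).toRingHom) =
      (Polynomial.aeval (R := kk) (Φ.D (p * e, x ^ p))).toRingHom := by
    have h2 : (nb_cl Φ).comp (Polynomial.aeval (R := kk)
        (⟨sig (p * e) (x ^ p) DDk, hm1⟩ : MM)) =
        Polynomial.aeval (R := kk) (Φ.D (p * e, x ^ p)) := by
      ext1
      rw [AlgHom.comp_apply, aeval_X, aeval_X]
      rfl
    rw [← h2]
    rfl
  rw [h5] at h4
  exact h4

theorem NB_of (hpsi : PSI_stmt) (hME : ME_stmt) : NB_stmt := by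
  intro Φ g v v' p hp hp2 hv hv' hpv hpv' hg u hu
  have hpodd : Odd p := hp.odd_of_ne_two hp2
  obtain ⟨Ψ, _, _, _, hΨ⟩ := hpsi p hp hp2
  obtain ⟨ω, hω⟩ := exists_primitive p hpodd
  have hΨ' := hΨ ω hω
  obtain ⟨v1, v2⟩ := v
  obtain ⟨v1', v2'⟩ := v'
  simp only at hv hv' hpv hpv'
  obtain ⟨e, rfl⟩ := hpv
  obtain ⟨e', rfl⟩ := hpv'
  obtain ⟨x, rfl⟩ := exists_unit_root p hp.ne_zero v2
  obtain ⟨x', rfl⟩ := exists_unit_root p hp.ne_zero v2'
  have he : Odd e := (Nat.odd_mul.mp hv).2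
  have he' : Odd e' := (Nat.odd_mul.mp hv').2
  have hA := nb_facA hME Φ p hpodd Ψ ω hΨ' e he x
  have hA' := nb_facA hME Φ p hpodd Ψ ω hΨ' e' he' x'
  -- the value at `u` vanishes
  have hroot : (Ψ.map (Polynomial.aeval (R := kk) (Φ.D (p * e, x ^ p))).toRingHom).eval
      (Φ.D u) = 0 := by
    rw [hA, eval_mul, eval_prod]
    simp only [eval_sub, eval_X, eval_C]
    rcases hu with ⟨ha, hb⟩ | ⟨ha, hb⟩
    · have : u = (p * (p * e), (x ^ p) ^ p) := Prod.ext ha hb
      rw [this, sub_self, zero_mul]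
    · simp only at ha hb
      have hue : u.1 = e := (Nat.eq_of_mul_eq_mul_left hp.pos ha).symm
      have hux : (u.2 * x⁻¹) ^ p = 1 := by
        rw [mul_pow, hb, inv_pow, mul_inv_cancel]
      have hωk : IsPrimitiveRoot (ω : kk) p := IsPrimitiveRoot.coe_units_iff.mpr hω
      have huxk : ((u.2 * x⁻¹ : kkˣ) : kk) ^ p = 1 := by
        rw [← Units.val_pow_eq_pow_val, hux, Units.val_one]
      have : NeZero p := ⟨hp.ne_zero⟩
      obtain ⟨j, hj, hj1⟩ := hωk.eq_pow_of_pow_eq_one huxk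
      have hj2 : ω ^ j = u.2 * x⁻¹ := Units.ext (by rw [Units.val_pow_eq_pow_val, hj1])
      have hu2 : u = (e, x * ω ^ j) := by
        refine Prod.ext hue ?_
        simp only
        rw [hj2, mul_comm, mul_assoc, inv_mul_cancel, mul_one]
      rw [mul_eq_zero]
      right
      rw [Finset.prod_eq_zero_iff]
      exact ⟨j, Finset.mem_range.mpr hj, by rw [hu2, sub_self]⟩
  -- apply `g`
  have hroot' : (Ψ.map (Polynomial.aeval (R := kk) (Φ.D (p * e', x' ^ p))).toRingHom).eval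
      (g (Φ.D u)) = 0 := by
    have h1 := congrArg (g : Φ.A →+* Φ.A) hroot
    rw [map_zero, ← Polynomial.eval_map_apply, Polynomial.map_map] at h1
    have h5 : ((g : Φ.A →+* Φ.A).comp (Polynomial.aeval (R := kk) (Φ.D (p * e, x ^ p))).toRingHom) =
        (Polynomial.aeval (R := kk) (Φ.D (p * e', x' ^ p))).toRingHom := by
      have h2 : (g : Φ.A →ₐ[kk] Φ.A).comp (Polynomial.aeval (R := kk) (Φ.D (p * e, x ^ p))) =
          Polynomial.aeval (R := kk) (Φ.D (p * e', x' ^ p)) := by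
        ext1
        rw [AlgHom.comp_apply, aeval_X, aeval_X]
        exact hg
      rw [← h2]
      rfl
    rw [h5] at h1
    exact h1
  rw [hA', eval_mul, eval_prod] at hroot'
  simp only [eval_sub, eval_X, eval_C] at hroot'
  rcases mul_eq_zero.mp hroot' with h | h
  · exact ⟨(p * (p * e'), (x' ^ p) ^ p), Or.inl ⟨rfl, rfl⟩, sub_eq_zero.mp h⟩
  · obtain ⟨j, _, hj⟩ := Finset.prod_eq_zero_iff.mp h
    refine ⟨(e', x' * ω ^ j), Or.inr ⟨rfl, ?_⟩, sub_eq_zero.mp hj⟩
    simp only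
    rw [mul_pow, ← pow_mul, mul_comm j p, pow_mul, hω.pow_eq_one, one_pow, mul_one]

end Pool.Agent.helper7.IG
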