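import Mathlib
import Pool.Agent.helper7.IG.Stmt1

set_option autoImplicit false

/-! # ig:LIO (MP_ebc808_nt): order of an eigenvalue of a matrix of polynomials -/

open Polynomial

namespace Pool.Agent.helper7.IG

/-- all coefficients of a polynomial in two variables have degree at most `n` -/
def lio_B {K : Type*} [CommRing K] (n : ℕ) (P : Polynomial (Polynomial K)) : Prop :=
  ∀ k, (P.coeff k).natDegree ≤ n

theorem lio_B_mul {K : Type*} [CommRing K] {a b : ℕ} {P Q : Polynomial (Polynomial K)}
    (hP : lio_B a P) (hQ : lio_B b Q) : lio_B (a + b) (P * Q) := by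
  intro k
  rw [coeff_mul]
  refine natDegree_sum_le_of_forall_le _ _ fun x _ => ?_
  exact natDegree_mul_le.trans (add_le_add (hP _) (hQ _))

theorem lio_B_one {K : Type*} [CommRing K] : lio_B 0 (1 : Polynomial (Polynomial K)) := by
  intro k
  rw [coeff_one]
  split_ifs <;> simp

theorem lio_B_prod {K : Type*} [CommRing K] {ι : Type*} (s : Finset ι) (n : ℕ)
    (P : ι → Polynomial (Polynomial K)) (hP : ∀ i ∈ s, lio_B n (P i)) :
    lio_B (s.card * n) (∏ i ∈ s, P i) := by
  classical
  induction s using Finset.induction_on with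
  | empty => simpa using lio_B_one
  | insert a s ha ih =>
    rw [Finset.prod_insert ha, Finset.card_insert_of_notMem ha, add_mul, one_mul, add_comm]
    exact lio_B_mul (hP a (Finset.mem_insert_self _ _))
      (ih fun i hi => hP i (Finset.mem_insert_of_mem hi))

theorem lio_B_sum {K : Type*} [CommRing K] {ι : Type*} (s : Finset ι) (n : ℕ)
    (P : ι → Polynomial (Polynomial K)) (hP : ∀ i ∈ s, lio_B n (P i)) :
    lio_B n (∑ i ∈ s, P i) := by
  intro k
  rw [finsetSum_coeff]
  exact natDegree_sum_le_of_forall_le _ _ fun i hi => hP i hi k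

theorem lio_B_mono {K : Type*} [CommRing K] {a b : ℕ} (h : a ≤ b) {P : Polynomial (Polynomial K)}
    (hP : lio_B a P) : lio_B b P := fun k => (hP k).trans h

theorem lio_B_neg {K : Type*} [CommRing K] {a : ℕ} {P : Polynomial (Polynomial K)}
    (hP : lio_B a P) : lio_B a (-P) := by
  intro k
  rw [coeff_neg, natDegree_neg]
  exact hP k

theorem lio_charpoly {K : Type*} [CommRing K] (m D : ℕ) (N : Matrix (Fin m) (Fin m) (Polynomial K))
    (hN : ∀ i j, (N i j).natDegree ≤ D) : lio_B (m * D) N.charpoly := by
  unfold Matrix.charpoly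
  rw [Matrix.det_apply]
  refine lio_B_sum _ _ _ fun σ _ => ?_
  have h : lio_B (m * D) (∏ i, N.charmatrix (σ i) i) := by
    have := lio_B_prod (Finset.univ : Finset (Fin m)) D (fun i => N.charmatrix (σ i) i) ?_
    · simpa using this
    · intro i _ k
      rw [Matrix.charmatrix_apply, coeff_sub, coeff_C]
      refine (natDegree_sub_le _ _).trans (max_le ?_ ?_)
      · by_cases h : σ i = i
        · rw [h, Matrix.diagonal_apply_eq, coeff_X]
          split_ifs <;> simp
        · rw [Matrix.diagonal_apply_ne _ h]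
          simp
      · split_ifs
        · exact hN _ _
        · simp
  rcases Int.units_eq_one_or (Equiv.Perm.sign σ) with hs | hs
  · rw [hs, one_smul]
    exact h
  · rw [hs]
    simpa using lio_B_neg h

theorem lio_eval {R : Type*} [CommRing R] {m : ℕ} (M : Matrix (Fin m) (Fin m) R) (w : Fin m → R)
    (θ : R) (h : M.mulVec w = θ • w) (p : Polynomial R) :
    (aeval M p).mulVec w = (p.eval θ) • w := by
  have hpow : ∀ k : ℕ, (M ^ k).mulVec w = (θ ^ k) • w := by
    intro k
    induction k with
    | zero => simp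
    | succ k ih =>
      rw [pow_succ, ← Matrix.mulVec_mulVec, h, Matrix.mulVec_smul, ih, smul_smul, pow_succ]
      congr 1
      ring
  induction p using Polynomial.induction_on' with
  | add p q hp hq =>
    rw [map_add, Matrix.add_mulVec, hp, hq, eval_add, add_smul]
  | monomial n a =>
    rw [aeval_monomial, eval_monomial, ← Matrix.mulVec_mulVec, hpow, Matrix.algebraMap_eq_diagonal]
    ext i
    simp only [Matrix.mulVec_diagonal, Pi.smul_apply, smul_eq_mul]
    simp only [Pi.algebraMap_apply, Algebra.algebraMap_self, RingHom.id_apply]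
    ring

theorem lio_root {R : Type*} [CommRing R] [IsDomain R] {m : ℕ} (M : Matrix (Fin m) (Fin m) R)
    (w : Fin m → R) (hw : w ≠ 0) (θ : R) (h : M.mulVec w = θ • w) : M.charpoly.eval θ = 0 := by
  have h1 := lio_eval M w θ h M.charpoly
  rw [Matrix.aeval_self_charpoly, Matrix.zero_mulVec] at h1
  obtain ⟨i, hi⟩ := Function.ne_iff.mp hw
  have h2 := congrFun h1 i
  simp only [Pi.zero_apply, Pi.smul_apply, smul_eq_mul] at h2
  rcases mul_eq_zero.mp h2.symm with h3 | h3
  · exact h3
  · exact absurd h3 hi

theorem LIO : LIO_stmt := by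
  intro m D N w θ hN hw hNw hθ hdvd
  have h1 := lio_root _ w hw θ hNw
  set f : Polynomial kk →+* PowerSeries kk := Polynomial.coeToPowerSeries.ringHom with hf
  have h2 : (N.map (fun P => (P : PowerSeries kk))).charpoly = N.charpoly.map f :=
    Matrix.charpoly_map N f
  rw [h2, eval_map] at h1
  have hmonic : N.charpoly.Monic := Matrix.charpoly_monic N
  have hne : N.charpoly ≠ 0 := hmonic.ne_zero
  set k0 := N.charpoly.natTrailingDegree with hk0
  have hc : N.charpoly.coeff k0 ≠ 0 := by
    rw [hk0]
    exact (trailingCoeff_nonzero_iff_nonzero (p := N.charpoly)).mpr hne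
  obtain ⟨q, hq⟩ : ∃ q : Polynomial (Polynomial kk), N.charpoly = X ^ k0 * q :=
    X_pow_dvd_iff.mpr fun d hd => coeff_eq_zero_of_lt_natTrailingDegree hd
  have hq0 : q.coeff 0 = N.charpoly.coeff k0 := by
    rw [hq]
    have := coeff_X_pow_mul q k0 0
    rw [zero_add] at this
    exact this.symm
  rw [hq, eval₂_mul, eval₂_pow, eval₂_X] at h1
  have h3 : eval₂ f θ q = 0 := by
    rcases mul_eq_zero.mp h1 with h | h
    · exact absurd h (pow_ne_zero _ hθ)
    · exact h
  have h4 : θ ∣ f (q.coeff 0) := by
    have h5 : X * q.divX + C (q.coeff 0) = q := X_mul_divX_add q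
    have h6 : θ * eval₂ f θ q.divX + f (q.coeff 0) = 0 := by
      have h7 := h3
      rw [← h5, eval₂_add, eval₂_mul, eval₂_X, eval₂_C] at h7
      exact h7
    refine ⟨-eval₂ f θ q.divX, ?_⟩
    linear_combination h6
  have h5 : PowerSeries.X ^ (m * D + 1) ∣ f (N.charpoly.coeff k0) := by
    rw [← hq0]
    exact hdvd.trans h4
  have h6 : (N.charpoly.coeff k0).natDegree ≤ m * D := lio_charpoly m D N hN k0
  apply hc
  ext n
  rw [coeff_zero]
  by_cases hn : n < m * D + 1
  · have h7 := PowerSeries.X_pow_dvd_iff.mp h5 n hn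
    have h8 : f (N.charpoly.coeff k0) = ((N.charpoly.coeff k0 : Polynomial kk) : PowerSeries kk) := rfl
    rw [h8, Polynomial.coeff_coe] at h7
    exact h7
  · exact coeff_eq_zero_of_natDegree_lt (by omega)

end Pool.Agent.helper7.IG
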