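import Mathlib
import Pool.Agent.helper7.IG.Stmt1
import Pool.Agent.helper97.IG.LIO

set_option autoImplicit false

/-! # ig:NM (MP_ebc808_nt): norms from the field of modular functions -/

open Polynomial

noncomputable section

namespace Pool.Agent.helper7.IG

/-- the order is at least `c` -/
def nm_G (F : LL) (c : ℤ) : Prop := ∀ n < c, F.coeff n = 0

theorem nm_G_mono {F : LL} {a b : ℤ} (h : nm_G F a) (hb : b ≤ a) : nm_G F b :=
  fun n hn => h n (lt_of_lt_of_le hn hb)

theorem nm_G_zero (c : ℤ) : nm_G 0 c := fun _ _ => rfl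

theorem nm_G_add {F G : LL} {a : ℤ} (hF : nm_G F a) (hG : nm_G G a) : nm_G (F + G) a := by
  intro n hn
  rw [HahnSeries.coeff_add, hF n hn, hG n hn, add_zero]

theorem nm_G_sum {ι : Type*} (s : Finset ι) (F : ι → LL) {a : ℤ} (h : ∀ i ∈ s, nm_G (F i) a) :
    nm_G (∑ i ∈ s, F i) a := by
  intro n hn
  rw [HahnSeries.coeff_sum]
  exact Finset.sum_eq_zero fun i hi => h i hi n hn

theorem nm_G_mul {F G : LL} {a b : ℤ} (hF : nm_G F a) (hG : nm_G G b) : nm_G (F * G) (a + b) := by
  intro n hn
  rw [HahnSeries.coeff_mul]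
  refine Finset.sum_eq_zero ?_
  rintro ⟨i, j⟩ hij
  simp only [Finset.mem_antidiagonal, HahnSeries.mem_support] at hij
  have h1 : i + j = n := hij.2.2
  rcases lt_or_ge i a with h | h
  · simp only
    rw [hF i h, zero_mul]
  · simp only
    rw [hG j (by omega), mul_zero]

theorem nm_G_pow {F : LL} {a : ℤ} (hF : nm_G F a) (k : ℕ) : nm_G (F ^ k) (k * a) := by
  induction k with
  | zero =>
    intro n hn
    rw [pow_zero, HahnSeries.coeff_one, if_neg]
    push_cast at hn
    omega
  | succ k ih =>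
    rw [pow_succ]
    have := nm_G_mul ih hF
    refine nm_G_mono this ?_
    push_cast
    linarith

theorem nm_G_order {F : LL} : nm_G F F.order := fun _ hn =>
  HahnSeries.coeff_eq_zero_of_lt_order hn

theorem nm_G_le {F : LL} (hF : F ≠ 0) {a : ℤ} (h : nm_G F a) : a ≤ F.order := by
  by_contra hlt
  push Not at hlt
  exact HahnSeries.coeff_order_eq_zero.not.mpr hF (h _ hlt)

theorem nm_G_ofPowerSeries (f : PowerSeries kk) : nm_G (HahnSeries.ofPowerSeries ℤ kk f) 0 := by
  intro n hn
  rw [HahnSeries.ofPowerSeries_apply]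
  refine HahnSeries.embDomain_of_notMem_range ?_
  rintro ⟨m, hm⟩
  simp at hm
  omega

theorem nm_G_incl (P : Polynomial kk) : nm_G (incl P) 0 := nm_G_ofPowerSeries _

theorem nm_G_DDk : nm_G DDk 0 := nm_G_ofPowerSeries _

/-- `ev` as a ring homomorphism -/
def nm_ev : Polynomial (Polynomial kk) →+* LL := eval₂RingHom incl DDk

theorem nm_ev_apply (P : Polynomial (Polynomial kk)) : nm_ev P = ev P := rfl

theorem nm_G_ev (P : Polynomial (Polynomial kk)) : nm_G (nm_ev P) 0 := by
  rw [nm_ev_apply]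
  unfold ev
  rw [eval₂_eq_sum_range]
  refine nm_G_sum _ _ fun i _ => ?_
  have h := nm_G_mul (nm_G_incl (P.coeff i)) (nm_G_pow nm_G_DDk i)
  simpa using h

theorem nm_incl_C (c : kk) : incl (C c) = algebraMap kk LL c := by
  have h0 : algebraMap kk LL c = HahnSeries.C c := rfl
  rw [h0]
  unfold incl
  rw [RingHom.comp_apply]
  have h1 : (Polynomial.coeToPowerSeries.ringHom (R := kk)) (C c) = PowerSeries.C c := by
    simp
  rw [h1]
  exact HahnSeries.ofPowerSeries_C c

theorem nm_ev_map (r : Polynomial kk) : nm_ev (r.map C) = aeval DDk r := by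
  rw [nm_ev_apply]
  unfold ev
  rw [eval₂_map, aeval_def]
  congr 1
  ext c
  exact congrArg (fun F : LL => F.coeff _) (nm_incl_C c)

theorem nm_ev_C (h : Polynomial kk) : nm_ev (C h) = incl h := by
  rw [nm_ev_apply]
  unfold ev
  rw [eval₂_C]

/-- common denominators -/
theorem nm_denom {ι : Type} [Fintype ι] (x : ι → LL)
    (hx : ∀ i, x i ∈ IntermediateField.adjoin kk {DDk}) :
    ∃ (a : Polynomial kk) (r : ι → Polynomial kk), aeval DDk a ≠ 0 ∧
      ∀ i, aeval DDk a * x i = aeval DDk (r i) := by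
  classical
  have h1 : ∀ i, ∃ r s : Polynomial kk, aeval DDk s ≠ 0 ∧ aeval DDk s * x i = aeval DDk r := by
    intro i
    obtain ⟨r, s, hrs⟩ := (IntermediateField.mem_adjoin_simple_iff kk (x i)).mp (hx i)
    by_cases hs : aeval DDk s = 0
    · refine ⟨0, 1, by simp, ?_⟩
      rw [hrs, hs, div_zero]
      simp
    · exact ⟨r, s, hs, by rw [hrs, mul_div_cancel₀ _ hs]⟩
  choose r s hs hrs using h1
  refine ⟨∏ i, s i, fun i => (∏ j ∈ Finset.univ.erase i, s j) * r i, ?_, fun i => ?_⟩
  · rw [map_prod]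
    exact Finset.prod_ne_zero_iff.mpr fun i _ => hs i
  · rw [← Finset.prod_erase_mul _ _ (Finset.mem_univ i), map_mul, map_mul, mul_assoc, hrs]

/-- the degree in the inner variable -/
def nm_B (n : ℕ) (R : Polynomial (Polynomial (Polynomial kk))) : Prop := ∀ k, lio_B n (R.coeff k)

theorem nm_B_mul {a b : ℕ} {P Q : Polynomial (Polynomial (Polynomial kk))}
    (hP : nm_B a P) (hQ : nm_B b Q) : nm_B (a + b) (P * Q) := by
  intro k
  rw [coeff_mul]
  exact lio_B_sum _ _ _ fun x _ => lio_B_mul (hP _) (hQ _)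

theorem nm_B_one : nm_B 0 1 := by
  intro k
  rw [coeff_one]
  split_ifs
  · exact lio_B_one
  · intro l
    simp

theorem nm_B_prod {ι : Type*} (s : Finset ι) (n : ℕ)
    (P : ι → Polynomial (Polynomial (Polynomial kk))) (hP : ∀ i ∈ s, nm_B n (P i)) :
    nm_B (s.card * n) (∏ i ∈ s, P i) := by
  classical
  induction s using Finset.induction_on with
  | empty => simpa using nm_B_one
  | insert a s ha ih =>
    rw [Finset.prod_insert ha, Finset.card_insert_of_notMem ha, add_mul, one_mul, add_comm]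
    exact nm_B_mul (hP a (Finset.mem_insert_self _ _))
      (ih fun i hi => hP i (Finset.mem_insert_of_mem hi))

theorem nm_B_sum {ι : Type*} (s : Finset ι) (n : ℕ)
    (P : ι → Polynomial (Polynomial (Polynomial kk))) (hP : ∀ i ∈ s, nm_B n (P i)) :
    nm_B n (∑ i ∈ s, P i) := by
  intro k
  rw [finsetSum_coeff]
  exact lio_B_sum _ _ _ fun i hi => hP i hi k

theorem nm_B_neg {a : ℕ} {P : Polynomial (Polynomial (Polynomial kk))}
    (hP : nm_B a P) : nm_B a (-P) := by
  intro k
  rw [coeff_neg]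
  exact lio_B_neg (hP k)

theorem nm_charpoly (m D : ℕ) (N : Matrix (Fin m) (Fin m) (Polynomial (Polynomial kk)))
    (hN : ∀ i j, lio_B D (N i j)) : nm_B (m * D) N.charpoly := by
  unfold Matrix.charpoly
  rw [Matrix.det_apply]
  refine nm_B_sum _ _ _ fun σ _ => ?_
  have h : nm_B (m * D) (∏ i, N.charmatrix (σ i) i) := by
    have := nm_B_prod (Finset.univ : Finset (Fin m)) D (fun i => N.charmatrix (σ i) i) ?_
    · simpa using this
    · intro i _ k l
      rw [Matrix.charmatrix_apply, coeff_sub, coeff_C, coeff_sub]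
      refine (natDegree_sub_le _ _).trans (max_le ?_ ?_)
      · by_cases h : σ i = i
        · rw [h, Matrix.diagonal_apply_eq, coeff_X]
          split_ifs
          · rw [coeff_one]
            split_ifs <;> simp
          · simp
        · rw [Matrix.diagonal_apply_ne _ h]
          simp
      · split_ifs
        · exact hN _ _ l
        · simp
  rcases Int.units_eq_one_or (Equiv.Perm.sign σ) with hs | hs
  · rw [hs, one_smul]
    exact h
  · rw [hs]
    simpa using nm_B_neg h

/-- the order of a root of a monic polynomial with integral coefficients -/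
theorem nm_root (p : Polynomial LL) (hp : p.Monic) (hG : ∀ k, nm_G (p.coeff k) 0)
    (θ : LL) (hθ : θ ≠ 0) (h0 : p.eval θ = 0) (C0 : ℕ) (hC : nm_G θ (-(C0 : ℤ))) :
    ∃ k, p.coeff k ≠ 0 ∧ θ.order ≤ (p.coeff k).order + (p.natDegree * C0 : ℕ) := by
  have hne : p ≠ 0 := hp.ne_zero
  set k0 := p.natTrailingDegree with hk0
  have hc : p.coeff k0 ≠ 0 := by
    rw [hk0]
    exact (trailingCoeff_nonzero_iff_nonzero (p := p)).mpr hne
  obtain ⟨q, hq⟩ : ∃ q : Polynomial LL, p = X ^ k0 * q :=
    X_pow_dvd_iff.mpr fun d hd => coeff_eq_zero_of_lt_natTrailingDegree hd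
  have hqc : ∀ j, q.coeff j = p.coeff (j + k0) := by
    intro j
    rw [hq]
    exact (coeff_X_pow_mul q k0 j).symm
  have hqne : q ≠ 0 := by
    rintro rfl
    exact hne (by rw [hq, mul_zero])
  have hqd : q.natDegree ≤ p.natDegree := natDegree_le_of_dvd ⟨X ^ k0, by rw [hq]; ring⟩ hne
  refine ⟨k0, hc, ?_⟩
  have h1 : q.eval θ = 0 := by
    rw [hq, eval_mul, eval_pow, eval_X] at h0
    rcases mul_eq_zero.mp h0 with h | h
    · exact absurd h (pow_ne_zero _ hθ)
    · exact h
  have h2 : θ * q.divX.eval θ + p.coeff k0 = 0 := by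
    have h5 : X * q.divX + C (q.coeff 0) = q := X_mul_divX_add q
    rw [← h5, eval_add, eval_mul, eval_X, eval_C, hqc, zero_add] at h1
    exact h1
  have h3 : p.coeff k0 = θ * (-q.divX.eval θ) := by linear_combination h2
  have h4 : -q.divX.eval θ ≠ 0 := by
    intro h
    rw [h, mul_zero] at h3
    exact hc h3
  have h5 : nm_G (q.divX.eval θ) (-((p.natDegree * C0 : ℕ) : ℤ)) := by
    rw [eval_eq_sum_range]
    refine nm_G_sum _ _ fun i hi => ?_
    have h6 : nm_G (q.divX.coeff i) 0 := by
      rw [coeff_divX, hqc]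
      exact hG _
    have h7 := nm_G_mul h6 (nm_G_pow hC i)
    refine nm_G_mono h7 ?_
    have h8 : i ≤ p.natDegree := by
      have := Finset.mem_range.mp hi
      have h9 : q.divX.natDegree = q.natDegree - 1 := natDegree_divX_eq_natDegree_tsub_one
      omega
    have h9 : (i : ℤ) * C0 ≤ p.natDegree * C0 :=
      mul_le_mul_of_nonneg_right (by exact_mod_cast h8) (by positivity)
    push_cast
    linarith
  have h6 : -((p.natDegree * C0 : ℕ) : ℤ) ≤ (-q.divX.eval θ).order := by
    refine nm_G_le h4 fun n hn => ?_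
    rw [HahnSeries.coeff_neg, h5 n hn, neg_zero]
  rw [h3, HahnSeries.order_mul hθ h4]
  linarith

theorem NM : NM_stmt := by
  classical
  intro ι _ W hW
  set F := IntermediateField.adjoin kk {DDk} with hF
  set F0 := IntermediateField.adjoin F (Set.range W) with hF0
  have hfin : FiniteDimensional F F0 := by
    rw [hF0]
    refine IntermediateField.finiteDimensional_adjoin ?_
    rintro _ ⟨i, rfl⟩
    exact (mem_MM.mp (hW i)).isIntegral
  set m := Module.finrank F F0 with hm
  have hmpos : 0 < m := Module.finrank_pos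
  let b : Module.Basis (Fin m) F F0 := Module.finBasis F F0
  let w : ι → F0 := fun i => ⟨W i, IntermediateField.subset_adjoin F _ ⟨i, rfl⟩⟩
  let M : ι → Matrix (Fin m) (Fin m) F := fun i => Algebra.leftMulMatrix b (w i)
  let e : Fin m → LL := fun j => ((b j : F0) : LL)
  have he : e ≠ 0 := by
    intro h
    have h1 := congrFun h ⟨0, hmpos⟩
    simp only [Pi.zero_apply, e] at h1
    exact b.ne_zero ⟨0, hmpos⟩ (Subtype.ext h1)
  have hMe : ∀ i j, W i * e j = ∑ k, ((M i k j : F) : LL) * e k := by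
    intro i j
    have h1 : w i * b j = ∑ k, (M i k j) • b k := by
      have h2 := b.sum_repr (w i * b j)
      have h4 : ∀ k, M i k j = b.repr (w i * b j) k := fun k =>
        Algebra.leftMulMatrix_eq_repr_mul b (w i) k j
      simp only [h4]
      exact h2.symm
    have h3 : ((w i * b j : F0) : LL) = ((∑ k, (M i k j) • b k : F0) : LL) := by rw [← h1]
    rw [IntermediateField.coe_mul, IntermediateField.coe_sum] at h3
    rw [show (w i : LL) = W i from rfl] at h3
    rw [h3]
    refine Finset.sum_congr rfl fun k _ => ?_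
    rfl
  obtain ⟨a, r, ha, hr⟩ := nm_denom (ι := ι × Fin m × Fin m)
    (fun x => ((M x.1 x.2.1 x.2.2 : F) : LL)) (fun x => (M x.1 x.2.1 x.2.2).2)
  set n0 : ℕ := Finset.univ.sup (fun x : ι × Fin m × Fin m => (r x).natDegree) with hn0
  have hrn : ∀ x, (r x).natDegree ≤ n0 := fun x =>
    Finset.le_sup (f := fun x : ι × Fin m × Fin m => (r x).natDegree) (Finset.mem_univ x)
  set C0 : ℕ := ∑ i, ((aeval DDk a) * W i).order.natAbs with hC0
  have hC0i : ∀ i, nm_G ((aeval DDk a) * W i) (-(C0 : ℤ)) := by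
    intro i
    refine nm_G_mono nm_G_order ?_
    have h1 : ((aeval DDk a) * W i).order.natAbs ≤ C0 :=
      Finset.single_le_sum (f := fun i => ((aeval DDk a) * W i).order.natAbs)
        (fun _ _ => Nat.zero_le _) (Finset.mem_univ i)
    omega
  refine ⟨max (m * n0) m, m * C0, fun H h hH hZ => ?_⟩
  set Z : LL := ∑ i, incl (h i) * W i with hZdef
  let Q : Matrix (Fin m) (Fin m) (Polynomial (Polynomial kk)) :=
    Matrix.of fun j k => ∑ i, C (h i) * (r (i, k, j)).map C
  have hQ1 : ∀ j k, (Q j k).natDegree ≤ n0 := by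
    intro j k
    refine natDegree_sum_le_of_forall_le _ _ fun i _ => ?_
    refine (natDegree_C_mul_le _ _).trans ?_
    exact natDegree_map_le.trans (hrn _)
  have hQ2 : ∀ j k, lio_B H (Q j k) := by
    intro j k
    refine lio_B_sum _ _ _ fun i _ => ?_
    intro l
    rw [coeff_C_mul, coeff_map]
    refine (natDegree_mul_C_le _ _).trans (hH i)
  set θ : LL := aeval DDk a * Z with hθdef
  have hθ : θ ≠ 0 := mul_ne_zero ha hZ
  have hQe : (Q.map nm_ev).mulVec e = θ • e := by
    ext1 j
    simp only [Matrix.mulVec, dotProduct, Matrix.map_apply, Pi.smul_apply, smul_eq_mul, Q,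
      Matrix.of_apply, map_sum, map_mul, nm_ev_C, nm_ev_map]
    rw [hθdef, hZdef, Finset.mul_sum, Finset.sum_mul]
    simp only [Finset.sum_mul]
    rw [Finset.sum_comm]
    refine Finset.sum_congr rfl fun i _ => ?_
    have h1 : aeval DDk a * (incl (h i) * W i) * e j = incl (h i) * (aeval DDk a * (W i * e j)) := by
      ring
    rw [h1, hMe, Finset.mul_sum, Finset.mul_sum]
    refine Finset.sum_congr rfl fun k _ => ?_
    rw [← hr (i, k, j)]
    ring
  have hroot := lio_root _ e he θ hQe
  have hcp : (Q.map nm_ev).charpoly = Q.charpoly.map nm_ev := Matrix.charpoly_map Q nm_ev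
  have hdeg : (Q.map nm_ev).charpoly.natDegree = m := by
    rw [Matrix.charpoly_natDegree_eq_dim, Fintype.card_fin]
  have hGθ : nm_G θ (-(C0 : ℤ)) := by
    have h1 : θ = ∑ i, incl (h i) * (aeval DDk a * W i) := by
      rw [hθdef, hZdef, Finset.mul_sum]
      refine Finset.sum_congr rfl fun i _ => ?_
      ring
    rw [h1]
    refine nm_G_sum _ _ fun i _ => ?_
    have := nm_G_mul (nm_G_incl (h i)) (hC0i i)
    rwa [zero_add] at this
  obtain ⟨k, hk1, hk2⟩ := nm_root _ (Matrix.charpoly_monic _) (fun k => by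
    rw [hcp, coeff_map]
    exact nm_G_ev _) θ hθ hroot C0 hGθ
  rw [hdeg] at hk2
  rw [hcp, coeff_map, nm_ev_apply] at hk1 hk2
  refine ⟨Q.charpoly.coeff k, ?_, ?_, ?_, ?_⟩
  · intro h0
    rw [h0] at hk1
    exact hk1 (by rw [← nm_ev_apply, map_zero])
  · exact (lio_charpoly m n0 Q hQ1 k).trans (le_max_left _ _)
  · intro l
    exact (nm_charpoly m H Q hQ2 k l).trans (Nat.mul_le_mul_right H (le_max_right _ _))
  · refine le_trans ?_ hk2
    rw [hθdef, HahnSeries.order_mul ha hZ]
    have h1 : 0 ≤ (aeval DDk a : LL).order := by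
      refine nm_G_le ha ?_
      rw [← nm_ev_map]
      exact nm_G_ev _
    linarith

end Pool.Agent.helper7.IG
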