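import Mathlib
import Pool.Agent.helper7.IG.Stmt1

set_option autoImplicit false

/-! # ig:WT (MP_ebc808_nt): `Wt` as a combination of twists of `Ug` -/

open Polynomial

noncomputable section

namespace Pool.Agent.helper7.IG

open Classical in
/-- sum of the powers of a root of unity -/
theorem wt_geom (t' : ℕ) (ht : Odd t') (x : kk) (hx : x ^ t' = 1) :
    ∑ i ∈ Finset.range t', x ^ i = if x = 1 then 1 else 0 := by
  split_ifs with h
  · rw [h]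
    simp only [one_pow, Finset.sum_const, Finset.card_range, nsmul_eq_mul, mul_one]
    obtain ⟨k, rfl⟩ := ht
    have h2 : (2 : kk) = 0 := CharTwo.two_eq_zero
    push_cast
    rw [h2]
    ring
  · have h1 := mul_geom_sum x t'
    rw [hx, sub_self] at h1
    rcases mul_eq_zero.mp h1 with h2 | h2
    · exact absurd (sub_eq_zero.mp h2) h
    · exact h2

theorem wt_coeff_Wt (t a : ℕ) (n : ℕ) :
    (Wt t a).coeff (24 * (n : ℤ) - 1) = if n ≡ a [MOD t] then pk n else 0 := by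
  unfold Wt
  have h : (24 * (n : ℤ) - 1) = (-1) + ((24 * n : ℕ) : ℤ) := by push_cast; ring
  rw [h]
  have h2 := HahnSeries.coeff_single_mul_add (r := (1 : kk))
    (x := ps fun m => if 24 ∣ m ∧ m / 24 ≡ a [MOD t] then pk (m / 24) else 0)
    (a := ((24 * n : ℕ) : ℤ)) (b := (-1 : ℤ))
  rw [add_comm] at h2
  rw [h2, one_mul, ps_coeff_nat]
  simp

theorem wt_coeff_Wt' (t a : ℕ) (k : ℤ) (hk : ∀ n : ℕ, k ≠ 24 * (n : ℤ) - 1) :
    (Wt t a).coeff k = 0 := by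
  unfold Wt
  have h2 := HahnSeries.coeff_single_mul_add (r := (1 : kk))
    (x := ps fun m => if 24 ∣ m ∧ m / 24 ≡ a [MOD t] then pk (m / 24) else 0)
    (a := k + 1) (b := (-1 : ℤ))
  rw [show k + 1 + -1 = k by ring] at h2
  rw [h2, one_mul, ps_coeff]
  split_ifs with h3 h4
  · exfalso
    obtain ⟨⟨c, hc⟩, _⟩ := h4
    apply hk c
    have h5 : ((k + 1).toNat : ℤ) = k + 1 := Int.toNat_of_nonneg h3
    rw [hc] at h5
    push_cast at h5
    linarith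
  · rfl
  · rfl

theorem wt_coeff_Ug (s : ℕ) (γ : ℤ) (n : ℕ) :
    (Ug s γ).coeff (24 * (n : ℤ) - 1) =
      if 24 * (n : ℤ) - 1 ≡ γ [ZMOD 2 ^ s] then pk n else 0 := by
  unfold Ug
  have h : (24 * (n : ℤ) - 1) = (-1) + ((24 * n : ℕ) : ℤ) := by push_cast; ring
  have h2 := HahnSeries.coeff_single_mul_add (r := (1 : kk))
    (x := ps fun m => if 24 ∣ m ∧ (m : ℤ) - 1 ≡ γ [ZMOD 2 ^ s] then pk (m / 24) else 0)
    (a := ((24 * n : ℕ) : ℤ)) (b := (-1 : ℤ))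
  rw [add_comm, ← h] at h2
  rw [h2, one_mul, ps_coeff_nat]
  have h3 : (24 * n) / 24 = n := by omega
  rw [h3]
  have h4 : 24 ∣ 24 * n := dvd_mul_right _ _
  simp only [h4, true_and, Nat.cast_mul, Nat.cast_ofNat]

theorem wt_coeff_Ug' (s : ℕ) (γ : ℤ) (k : ℤ) (hk : ∀ n : ℕ, k ≠ 24 * (n : ℤ) - 1) :
    (Ug s γ).coeff k = 0 := by
  unfold Ug
  have h2 := HahnSeries.coeff_single_mul_add (r := (1 : kk))
    (x := ps fun m => if 24 ∣ m ∧ (m : ℤ) - 1 ≡ γ [ZMOD 2 ^ s] then pk (m / 24) else 0)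
    (a := k + 1) (b := (-1 : ℤ))
  rw [show k + 1 + -1 = k by ring] at h2
  rw [h2, one_mul, ps_coeff]
  split_ifs with h3 h4
  · exfalso
    obtain ⟨⟨c, hc⟩, _⟩ := h4
    apply hk c
    have h5 : ((k + 1).toNat : ℤ) = k + 1 := Int.toNat_of_nonneg h3
    rw [hc] at h5
    push_cast at h5
    linarith
  · rfl
  · rfl

open Classical in
theorem WT : WT_stmt := by
  intro e t' a L ζ ht hL hζ
  ext n
  rw [HahnSeries.coeff_sum]
  have hterm : ∀ i ∈ Finset.range t', (algebraMap kk LL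
      ((ζ ^ (-((i : ℤ) * (24 * (a : ℤ) - 1))) : kkˣ) : kk) *
      sig L (ζ ^ i) (Ug (e + 3) (24 * (a : ℤ) - 1))).coeff n =
      ((ζ ^ (-((i : ℤ) * (24 * (a : ℤ) - 1))) : kkˣ) : kk) *
        (sig L (ζ ^ i) (Ug (e + 3) (24 * (a : ℤ) - 1))).coeff n := by
    intro i _
    rw [← Algebra.smul_def, HahnSeries.coeff_smul, smul_eq_mul]
  rw [Finset.sum_congr rfl hterm]
  by_cases hn : (L : ℤ) ∣ n
  swap
  · rw [sig_coeff hL, if_neg hn]
    symm
    apply Finset.sum_eq_zero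
    intro i _
    rw [sig_coeff hL, if_neg hn, mul_zero]
  obtain ⟨k, rfl⟩ := hn
  rw [sig_coeff_mul hL]
  simp only [sig_coeff_mul hL, one_zpow, Units.val_one, one_mul]
  by_cases hk : ∃ m : ℕ, k = 24 * (m : ℤ) - 1
  swap
  · push Not at hk
    rw [wt_coeff_Wt' _ _ _ hk, wt_coeff_Ug' _ _ _ hk]
    simp
  obtain ⟨m, rfl⟩ := hk
  rw [wt_coeff_Wt, wt_coeff_Ug]
  set x : kkˣ := ζ ^ (24 * ((m : ℤ) - a)) with hx
  have hx1 : x ^ t' = 1 := by
    rw [hx, ← zpow_natCast, ← zpow_mul]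
    have h1 : 24 * ((m : ℤ) - a) * (t' : ℤ) = ((3 * t' : ℕ) : ℤ) * (8 * ((m : ℤ) - a)) := by
      push_cast; ring
    rw [h1, zpow_mul, zpow_natCast, hζ.pow_eq_one, one_zpow]
  have hsum : ∑ i ∈ Finset.range t', ((ζ ^ (-((i : ℤ) * (24 * (a : ℤ) - 1))) : kkˣ) : kk) *
      ((((ζ ^ i) ^ (24 * (m : ℤ) - 1) : kkˣ) : kk) *
        (if 24 * (m : ℤ) - 1 ≡ 24 * (a : ℤ) - 1 [ZMOD 2 ^ (e + 3)] then pk m else 0)) =
      (∑ i ∈ Finset.range t', (x : kk) ^ i) *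
        (if 24 * (m : ℤ) - 1 ≡ 24 * (a : ℤ) - 1 [ZMOD 2 ^ (e + 3)] then pk m else 0) := by
    rw [Finset.sum_mul]
    refine Finset.sum_congr rfl fun i _ => ?_
    rw [← mul_assoc, ← Units.val_mul]
    congr 1
    rw [← Units.val_pow_eq_pow_val]
    congr 1
    rw [hx, ← zpow_natCast ζ i, ← zpow_mul, ← zpow_add, ← zpow_natCast, ← zpow_mul]
    congr 1
    ring
  rw [hsum, wt_geom t' ht _ (by rw [← Units.val_pow_eq_pow_val, hx1, Units.val_one])]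
  have hcop : Nat.Coprime (2 ^ e) t' := Nat.Coprime.pow_left _ (Nat.coprime_two_left.mpr ht)
  have hA : (24 * (m : ℤ) - 1 ≡ 24 * (a : ℤ) - 1 [ZMOD 2 ^ (e + 3)]) ↔ m ≡ a [MOD 2 ^ e] := by
    rw [← Int.natCast_modEq_iff, Int.modEq_iff_dvd, Int.modEq_iff_dvd]
    push_cast
    have h1 : (24 * (a : ℤ) - 1 - (24 * (m : ℤ) - 1)) = 8 * (3 * ((a : ℤ) - m)) := by ring
    have h2 : (2 : ℤ) ^ (e + 3) = 8 * 2 ^ e := by ring
    rw [h1, h2]
    constructor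
    · intro h
      have h3 : (2 : ℤ) ^ e ∣ 3 * ((a : ℤ) - m) := Int.dvd_of_mul_dvd_mul_left (by norm_num) h
      have h4 : IsCoprime ((2 : ℤ) ^ e) 3 := IsCoprime.pow_left (by norm_num)
      exact h4.dvd_of_dvd_mul_left h3
    · intro h
      exact mul_dvd_mul_left 8 (Dvd.dvd.mul_left h 3)
  have hB : ((x : kk) = 1) ↔ m ≡ a [MOD t'] := by
    rw [← Units.val_one, Units.val_inj, hx]
    have h1 : ζ ^ (24 * ((m : ℤ) - a)) = 1 ↔ ((3 * t' : ℕ) : ℤ) ∣ 24 * ((m : ℤ) - a) :=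
      hζ.zpow_eq_one_iff_dvd _
    rw [h1, ← Int.natCast_modEq_iff, Int.modEq_iff_dvd]
    push_cast
    have h2 : (24 * ((m : ℤ) - a)) = 3 * (8 * ((m : ℤ) - a)) := by ring
    rw [h2]
    constructor
    · intro h
      have h3 : (t' : ℤ) ∣ 8 * ((m : ℤ) - a) := Int.dvd_of_mul_dvd_mul_left (by norm_num) h
      have h4 : IsCoprime (t' : ℤ) 8 := by
        have : Nat.Coprime t' (2 ^ 3) := Nat.Coprime.pow_right _ (Nat.coprime_two_right.mpr ht)
        exact_mod_cast Nat.isCoprime_iff_coprime.mpr this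
      have h5 := h4.dvd_of_dvd_mul_left h3
      have h6 : (a : ℤ) - m = -((m : ℤ) - a) := by ring
      rw [h6]
      exact (dvd_neg).mpr h5
    · intro h
      have h6 : (m : ℤ) - a = -((a : ℤ) - m) := by ring
      rw [h6]
      exact mul_dvd_mul_left 3 (Dvd.dvd.mul_left ((dvd_neg).mpr h) 8)
  have hAB : (m ≡ a [MOD 2 ^ e * t']) ↔ (m ≡ a [MOD 2 ^ e]) ∧ (m ≡ a [MOD t']) :=
    (Nat.modEq_and_modEq_iff_modEq_mul hcop).symm
  rw [if_congr hA rfl rfl, if_congr hB rfl rfl, if_congr hAB rfl rfl]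
  by_cases h1 : m ≡ a [MOD 2 ^ e] <;> by_cases h2 : m ≡ a [MOD t'] <;> simp [h1, h2]

end Pool.Agent.helper7.IG
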