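import Mathlib
import Pool.Agent.helper7.IG.Basic
import Pool.Agent.helper97.IG.WT

set_option autoImplicit false

/-! # ig:RA (MP_ebc808_nt): no progression on which the partition function is always even -/

open Polynomial

noncomputable section

namespace Pool.Agent.helper7.IG

/-- an odd square root of `- 1 / γ` -/
theorem ra_sqrt (hSQ : SQ_stmt) (n : ℕ) (hn : 3 ≤ n) (γ : ℤ) (hγ : γ ≡ -1 [ZMOD 8]) :
    ∃ δ : ℤ, Odd δ ∧ δ ^ 2 * γ ≡ -1 [ZMOD 2 ^ n] := by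
  have hodd : IsCoprime γ ((2 : ℤ) ^ n) := by
    refine IsCoprime.pow_right ?_
    rw [Int.isCoprime_iff_gcd_eq_one]
    have h2 : ¬ (2 : ℤ) ∣ γ := by
      unfold Int.ModEq at hγ
      omega
    have h3 : IsCoprime γ 2 := (Int.prime_two.coprime_iff_not_dvd.mpr h2).symm
    exact Int.isCoprime_iff_gcd_eq_one.mp h3
  obtain ⟨a, b, hab⟩ := hodd
  have h8 : (8 : ℤ) ∣ 2 ^ n := by
    have : (8 : ℤ) = 2 ^ 3 := by norm_num
    rw [this]
    exact pow_dvd_pow 2 hn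
  have haγ : (-a) * γ ≡ -1 [ZMOD 2 ^ n] := by
    rw [Int.modEq_iff_dvd]
    exact ⟨-b, by linear_combination hab⟩
  have hu : (-a) ≡ 1 [ZMOD 8] := by
    have h1 : (-a) * γ ≡ -1 [ZMOD 8] := haγ.of_dvd h8
    have h2 : (-a) * γ ≡ (-a) * (-1) [ZMOD 8] := hγ.mul_left (-a)
    have h3 : (-a) * (-1) ≡ -1 [ZMOD 8] := h2.symm.trans h1
    have h4 := h3.neg
    have h5 : -((-a) * (-1)) = -a := by ring
    rw [h5, neg_neg] at h4
    exact h4
  obtain ⟨d, hd, hd2⟩ := hSQ n (-a) hu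
  exact ⟨d, hd, (hd2.mul_right γ).trans haγ⟩

/-- `Ug` has exponents at least `-1` -/
theorem ra_Ug_lt (s : ℕ) (γ : ℤ) (k : ℤ) (hk : k < -1) : (Ug s γ).coeff k = 0 := by
  apply wt_coeff_Ug'
  intro n hn
  omega

theorem ra_Ug_neg_one (s : ℕ) (γ : ℤ) (h : γ ≡ -1 [ZMOD 2 ^ s]) : (Ug s γ).coeff (-1) = 1 := by
  have h1 := wt_coeff_Ug s γ 0
  have h2 : (24 * ((0 : ℕ) : ℤ) - 1) = -1 := by norm_num
  rw [h2, if_pos h.symm] at h1
  rw [h1]
  unfold pk
  simp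

theorem RA_of (hFR : FR_stmt) (_hF1 : F1_stmt) (hME : ME_stmt) (_hTHM : THM_stmt)
    (hUGM : UGM_stmt) (hWT : WT_stmt) (hSQ : SQ_stmt) (hDI : DI_stmt) (hTY : TY_stmt)
    (hTYM : TYM_stmt) (hUD : UD_stmt) (hPG : PG_stmt) (hCO : CO_stmt) : RA_stmt := by
  classical
  intro t a ht hW
  obtain ⟨Φ⟩ := hFR
  obtain ⟨e, t', ht', htt⟩ := Nat.exists_eq_two_pow_mul_odd (n := t) (by omega)
  have ht'0 : 0 < t' := ht'.pos
  set L := 3 * t' with hL
  set N := 9 * t' ^ 2 with hN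
  set γ : ℤ := 24 * (a : ℤ) - 1 with hγ
  have hLodd : Odd L := Odd.mul (by decide) ht'
  have hNodd : Odd N := Odd.mul (by decide) ht'.pow
  have hL0 : L ≠ 0 := by omega
  obtain ⟨ζ, hζ⟩ := exists_primitive (3 * t') hLodd
  have hrel := hWT e t' a L ζ ht' hL0 hζ
  rw [← htt, hW, map_zero] at hrel
  set s := e + 2 with hs
  have hs2 : 2 ≤ s := by omega
  have hes : e + 3 = s + 1 := by omega
  rw [hes] at hrel
  obtain ⟨δ, hδ, hδγ⟩ := ra_sqrt hSQ (s + 1) (by omega) γ (by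
    rw [Int.modEq_iff_dvd]
    exact ⟨-(3 * (a : ℤ)), by rw [hγ]; ring⟩)
  have hNt : N / t' = 3 * L := by
    rw [hN, hL]
    have : 9 * t' ^ 2 = t' * (3 * (3 * t')) := by ring
    rw [this]
    exact Nat.mul_div_cancel_left _ ht'0
  obtain ⟨g, hg1, hg2, hg3⟩ := hPG Φ N t' s δ hNodd
    (Dvd.dvd.mul_right (by norm_num) _) (Dvd.intro_left 9 rfl) hs2 hδ
  rw [hNt] at hg2 hg3
  set E := 3 * t' ^ 3 with hE
  have hNE : N * t' = 3 * E := by rw [hN, hE]; ring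
  rw [hNE] at hg2 hg3
  have hEodd : Odd E := Odd.mul (by decide) ht'.pow
  obtain ⟨l, hl, hTl⟩ := (hTY.2.1) N t' hNodd (by rw [hN, pow_two]; exact ⟨9 * t', by ring⟩)
  rw [hNt] at hTl
  have hζ3 : ∀ i : ℕ, ((ζ ^ i) ^ 3) ^ t' = 1 := by
    intro i
    rw [← pow_mul, ← pow_mul]
    rw [mul_comm, pow_mul, hζ.pow_eq_one, one_pow]
  have h3Lodd : Odd (3 * L) := Odd.mul (by decide) hLodd
  -- the data of each vertex
  have hdata : ∀ i : ℕ, i < t' → ∃ (e' : ℕ) (z : kkˣ) (d : ℤ) (θ : kk), Odd e' ∧ θ ≠ 0 ∧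
      (i ≠ 0 → e' < E) ∧ (i = 0 → e' = E ∧ z = 1 ∧ d = δ) ∧
      ∀ γ' : ℤ, g (Φ.cl (sig L (ζ ^ i) (Ug (s + 1) γ'))) =
        algebraMap kk Φ.A θ * Φ.cl (sig e' z (Ug (s + 1) (d ^ 2 * γ'))) := by
    intro i hi
    by_cases hi0 : i = 0
    · subst hi0
      obtain ⟨θ, hθ, hθ2⟩ := hCO Φ L E s (ζ ^ 0) 1 g δ hLodd hEodd hs2 hδ
        (by rw [pow_zero, one_pow]; exact hg2)
        (by intro c hc; rw [pow_zero, one_pow]; exact hg3 c hc)
      exact ⟨E, 1, δ, θ, hEodd, hθ, fun h => absurd rfl h, fun _ => ⟨rfl, rfl, rfl⟩, hθ2⟩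
    · obtain ⟨w, hTw, hgw⟩ := hTYM Φ N g l (3 * L, (ζ ^ i) ^ 3) hNodd
        (by rw [hl, hN, pow_two]; exact ⟨9 * t', by ring⟩) hg1 (hTl _ (hζ3 i))
      obtain ⟨hw1, hw2, hw3, hw4⟩ := hTY.1 N l w hNodd hTw
      rw [hl] at hw2 hw3 hw4
      have hw5 : 3 ∣ w.1 := by
        have h1 : 9 * t' * t' ∣ w.1 * t' := by
          have : 9 * t' * t' = N := by rw [hN]; ring
          rw [this]
          exact hw2
        have h2 : 9 * t' ∣ w.1 := Nat.dvd_of_mul_dvd_mul_right ht'0 h1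
        exact dvd_trans ⟨3 * t', by ring⟩ h2
      obtain ⟨e', he'⟩ := hw5
      obtain ⟨z, hz⟩ := exists_unit_root 3 (by norm_num) w.2
      have hwe : w = (3 * e', z ^ 3) := Prod.ext he' hz.symm
      have he'odd : Odd e' := by
        rw [he'] at hw1
        exact (Nat.odd_mul.mp hw1).2
      have hlt : e' < E := by
        have h1 : 3 * e' ≤ 3 * E := by
          rw [← hNE, ← he']
          exact hw3
        rcases Nat.lt_or_ge e' E with h | h
        · exact h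
        · exfalso
          have h2 : w.1 = N * t' := by rw [he', hNE]; omega
          have h3 : w.2 = 1 := hw4 h2
          have h4 : w = (3 * E, 1) := by
            refine Prod.ext ?_ h3
            rw [h2, hNE]
          rw [h4, ← hg2] at hgw
          have h5 := hDI Φ (3 * L, (ζ ^ i) ^ 3) (3 * L, 1) h3Lodd h3Lodd (g.injective hgw)
          have h6 : (ζ ^ i) ^ 3 = 1 := congrArg Prod.snd h5
          rw [← pow_mul] at h6
          have h7 := hζ.dvd_of_pow_eq_one _ h6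
          have h8 : t' ∣ i := by
            rw [mul_comm i 3] at h7
            exact Nat.dvd_of_mul_dvd_mul_left (by norm_num) h7
          exact hi0 (Nat.eq_zero_of_dvd_of_lt h8 hi)
      rw [hwe] at hgw hw1
      obtain ⟨d, hd, hd2⟩ := hUD Φ g (3 * L, (ζ ^ i) ^ 3) (3 * e', z ^ 3) h3Lodd hw1 hgw s hs2
      obtain ⟨θ, hθ, hθ2⟩ := hCO Φ L e' s (ζ ^ i) z g d hLodd he'odd hs2 hd hgw hd2
      exact ⟨e', z, d, θ, he'odd, hθ, fun _ => hlt, fun h => absurd h hi0, hθ2⟩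
  choose! e' z d θ he' hθ hlt hzero hgU using hdata
  -- the relation after applying `g`
  have hmem1 : ∀ i : ℕ, sig L (ζ ^ i) (Ug (s + 1) γ) ∈ MM := fun i =>
    hME _ _ _ hLodd (hUGM s γ hs2)
  have hmem2 : ∀ i ∈ Finset.range t', sig (e' i) (z i) (Ug (s + 1) ((d i) ^ 2 * γ)) ∈ MM :=
    fun i hi => hME _ _ _ (he' i (Finset.mem_range.mp hi)) (hUGM s _ hs2)
  set c : ℕ → kk := fun i => ((ζ ^ (-((i : ℤ) * γ)) : kkˣ) : kk) with hc
  have hrel2 : ∑ i ∈ Finset.range t', algebraMap kk LL (c i * θ i) *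
      sig (e' i) (z i) (Ug (s + 1) ((d i) ^ 2 * γ)) = 0 := by
    apply Φ.cl_inj
    · exact sum_mem fun i hi => mul_mem (C_mem _) (hmem2 i hi)
    · rw [Φ.cl_sum _ _ fun i hi => mul_mem (C_mem _) (hmem2 i hi)]
      have h1 : g (Φ.cl (∑ i ∈ Finset.range t', algebraMap kk LL (c i) *
          sig L (ζ ^ i) (Ug (s + 1) γ))) = 0 := by
        rw [← hrel, Φ.cl_zero, map_zero]
      rw [Φ.cl_sum _ _ fun i _ => mul_mem (C_mem _) (hmem1 i), map_sum] at h1
      rw [← h1]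
      refine Finset.sum_congr rfl fun i hi => ?_
      rw [Φ.cl_smul _ (hmem2 i hi), Φ.cl_smul _ (hmem1 i), map_mul g, AlgEquiv.commutes,
        hgU i (Finset.mem_range.mp hi), map_mul, mul_assoc]
  -- the coefficient at `-E`
  have hcoef := congrArg (fun F : LL => F.coeff ((E : ℤ) * (-1))) hrel2
  simp only [HahnSeries.coeff_zero] at hcoef
  rw [HahnSeries.coeff_sum] at hcoef
  have hterm : ∀ i ∈ Finset.range t', (algebraMap kk LL (c i * θ i) *
      sig (e' i) (z i) (Ug (s + 1) ((d i) ^ 2 * γ))).coeff ((E : ℤ) * (-1)) =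
      (c i * θ i) * (sig (e' i) (z i) (Ug (s + 1) ((d i) ^ 2 * γ))).coeff ((E : ℤ) * (-1)) := by
    intro i _
    rw [← Algebra.smul_def, HahnSeries.coeff_smul, smul_eq_mul]
  rw [Finset.sum_congr rfl hterm] at hcoef
  have hE0 : E ≠ 0 := hEodd.pos.ne'
  rw [Finset.sum_eq_single 0] at hcoef
  · obtain ⟨h1, h2, h3⟩ := hzero 0 ht'0 rfl
    rw [h1, h2, h3, sig_coeff_mul hE0, ra_Ug_neg_one _ _ hδγ] at hcoef
    have h4 : c 0 = 1 := by
      rw [hc]
      simp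
    rw [h4] at hcoef
    simp only [one_zpow, Units.val_one, mul_one, one_mul] at hcoef
    exact hθ 0 ht'0 hcoef
  · intro i hi hi0
    have h1 : e' i < E := hlt i (Finset.mem_range.mp hi) hi0
    have h2 : 0 < e' i := (he' i (Finset.mem_range.mp hi)).pos
    rw [sig_coeff h2.ne']
    split_ifs with h
    · obtain ⟨k, hk⟩ := h
      rw [hk, Int.mul_ediv_cancel_left _ (by exact_mod_cast h2.ne'), ra_Ug_lt, mul_zero, mul_zero]
      by_contra hk2
      push Not at hk2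
      have h3 : (e' i : ℤ) * (-1) ≤ (e' i : ℤ) * k :=
        mul_le_mul_of_nonneg_left hk2 (by omega)
      rw [← hk] at h3
      omega
    · rw [mul_zero]
  · intro h
    exact absurd (Finset.mem_range.mpr ht'0) h

end Pool.Agent.helper7.IG
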