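import Mathlib
import Pool.Agent.helper7.IG.Stmt2

set_option autoImplicit false

/-! # ig:TY (MP_ebc808_nt): paths and types of vertices -/

open Polynomial

noncomputable section

namespace Pool.Agent.helper7.IG

theorem ty_one (N : ℕ) (l : List ℕ) (v : Vx) (hN : Odd N) (h : Ty N l v) :
    Odd v.1 ∧ N ∣ v.1 * l.prod ∧ v.1 ≤ N * l.prod ∧ (v.1 = N * l.prod → v.2 = 1) := by
  induction h with
  | nil => simp [hN]
  | @cons p l v u hp hp2 hv hnb ih =>
    obtain ⟨h1, h2, h3, h4⟩ := ih
    have hpodd : Odd p := hp.odd_of_ne_two hp2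
    rw [List.prod_cons]
    rcases hnb with ⟨ha, hb⟩ | ⟨ha, hb⟩
    · refine ⟨?_, ?_, ?_, ?_⟩
      · rw [ha]
        exact hpodd.mul h1
      · rw [ha]
        have : p * v.1 * (p * l.prod) = v.1 * l.prod * (p * p) := by ring
        rw [this]
        exact Dvd.dvd.mul_right h2 _
      · rw [ha]
        calc p * v.1 ≤ p * (N * l.prod) := Nat.mul_le_mul_left p h3
          _ = N * (p * l.prod) := by ring
      · intro h
        rw [ha] at h
        have h5 : p * v.1 = p * (N * l.prod) := by rw [h]; ring
        have h6 := Nat.eq_of_mul_eq_mul_left hp.pos h5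
        rw [hb, h4 h6, one_pow]
    · have hu : Odd u.1 := by
        rw [ha] at h1
        exact (Nat.odd_mul.mp h1).2
      refine ⟨hu, ?_, ?_, ?_⟩
      · rw [ha] at h2
        have : u.1 * (p * l.prod) = p * u.1 * l.prod := by ring
        rw [this]
        exact h2
      · calc u.1 ≤ p * u.1 := Nat.le_mul_of_pos_left _ hp.pos
          _ = v.1 := ha.symm
          _ ≤ N * l.prod := h3
          _ ≤ p * (N * l.prod) := Nat.le_mul_of_pos_left _ hp.pos
          _ = N * (p * l.prod) := by ring
      · intro h
        exfalso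
        have h5 : 0 < N * l.prod := lt_of_lt_of_le (h1.pos) h3
        have h6 : p * (N * (p * l.prod)) ≤ N * l.prod := by
          rw [← h, ← ha]
          exact h3
        have h7 : p * (N * (p * l.prod)) = (p * p) * (N * l.prod) := by ring
        rw [h7] at h6
        have h8 : 2 * (N * l.prod) ≤ (p * p) * (N * l.prod) := by
          refine Nat.mul_le_mul_right _ ?_
          calc 2 ≤ p := hp.two_le
            _ ≤ p * p := Nat.le_mul_of_pos_left _ hp.pos
        omega

theorem ty_two (N : ℕ) (hN : Odd N) (m : ℕ) (hm : m ∣ N) : ∃ l : List ℕ, l.prod = m ∧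
    ∀ η : kkˣ, η ^ m = 1 → Ty N l (N / m, η) := by
  induction m using Nat.strong_induction_on with
  | _ m ih =>
    by_cases h1 : m = 1
    · refine ⟨[], by simp [h1], fun η hη => ?_⟩
      rw [h1, pow_one] at hη
      rw [h1, hη, Nat.div_one]
      exact Ty.nil
    · have hm0 : m ≠ 0 := by
        rintro rfl
        rw [Nat.eq_zero_of_zero_dvd hm] at hN
        exact absurd hN (by decide)
      have hp : m.minFac.Prime := Nat.minFac_prime h1
      obtain ⟨m', hm'⟩ := Nat.minFac_dvd m
      set p := m.minFac with hpdef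
      have hm'0 : 0 < m' := by
        rcases Nat.eq_zero_or_pos m' with h | h
        · rw [h, mul_zero] at hm'
          exact absurd hm' hm0
        · exact h
      have hlt : m' < m := by
        rw [hm']
        calc m' < 2 * m' := by omega
          _ ≤ p * m' := Nat.mul_le_mul_right _ hp.two_le
      have hdvd : m' ∣ N := (Dvd.intro_left p hm'.symm).trans hm
      have hp2 : p ≠ 2 := by
        intro h
        have h2 : 2 ∣ N := by
          rw [← h]
          exact (Dvd.intro m' hm'.symm).trans hm
        rw [Nat.odd_iff] at hN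
        omega
      obtain ⟨l, hl, hT⟩ := ih m' hlt hdvd
      refine ⟨p :: l, by rw [List.prod_cons, hl, ← hm'], fun η hη => ?_⟩
      have hη' : (η ^ p) ^ m' = 1 := by rw [← pow_mul, ← hm', hη]
      refine Ty.cons hp hp2 (hT (η ^ p) hη') (Or.inr ⟨?_, rfl⟩)
      simp only
      obtain ⟨k, hk⟩ := hm
      have hp0 : 0 < p := hp.pos
      have e1 : N / m = k := by
        rw [hk]
        exact Nat.mul_div_cancel_left k (Nat.pos_of_ne_zero hm0)
      have e2 : N / m' = p * k := by
        have : N = m' * (p * k) := by
          rw [hk]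
          conv_lhs => rw [hm']
          ring
        rw [this]
        exact Nat.mul_div_cancel_left _ hm'0
      rw [e1, e2]

theorem ty_three (N : ℕ) (m : ℕ) (hm : Odd m) : ∃ l : List ℕ, l.prod = m ∧
    Ty N l (N * m, 1) := by
  induction m using Nat.strong_induction_on with
  | _ m ih =>
    by_cases h1 : m = 1
    · refine ⟨[], by simp [h1], ?_⟩
      rw [h1, mul_one]
      exact Ty.nil
    · have hm0 : m ≠ 0 := by
        rintro rfl
        exact absurd hm (by decide)
      have hp : m.minFac.Prime := Nat.minFac_prime h1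
      obtain ⟨m', hm'⟩ := Nat.minFac_dvd m
      set p := m.minFac with hpdef
      have hm'0 : 0 < m' := by
        rcases Nat.eq_zero_or_pos m' with h | h
        · rw [h, mul_zero] at hm'
          exact absurd hm' hm0
        · exact h
      have hlt : m' < m := by
        rw [hm']
        calc m' < 2 * m' := by omega
          _ ≤ p * m' := Nat.mul_le_mul_right _ hp.two_le
      have hodd : Odd p ∧ Odd m' := by
        have h2 := hm
        rw [hm'] at h2
        exact Nat.odd_mul.mp h2
      have hp2 : p ≠ 2 := by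
        intro h
        have h2 := hodd.1
        rw [h] at h2
        exact absurd h2 (by decide)
      obtain ⟨l, hl, hT⟩ := ih m' hlt hodd.2
      refine ⟨p :: l, by rw [List.prod_cons, hl, ← hm'], ?_⟩
      refine Ty.cons hp hp2 hT (Or.inl ⟨?_, ?_⟩)
      · simp only
        conv_lhs => rw [hm']
        ring
      · simp

theorem TY : TY_stmt :=
  ⟨fun N l v hN h => ty_one N l v hN h, fun N m hN hm => ty_two N hN m hm,
    fun N m _ hm => ty_three N m hm⟩

theorem TYM_of (hNB : NB_stmt) : TYM_stmt := by
  intro Φ N g l v hN hl hg h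
  induction h with
  | nil => exact ⟨(N, 1), Ty.nil, hg⟩
  | @cons p l v u hp hp2 hv hnb ih =>
    rw [List.prod_cons] at hl
    obtain ⟨v', hv', hgv⟩ := ih ((Dvd.intro_left p rfl).trans hl)
    have hl0 : 0 < l.prod := by
      rcases Nat.eq_zero_or_pos l.prod with h | h
      · rw [h, mul_zero] at hl
        rw [Nat.eq_zero_of_zero_dvd hl] at hN
        exact absurd hN (by decide)
      · exact h
    have key : ∀ w : Vx, Ty N l w → Odd w.1 ∧ p ∣ w.1 := by
      intro w hw
      obtain ⟨h1, h2, _, _⟩ := ty_one N l w hN hw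
      exact ⟨h1, Nat.dvd_of_mul_dvd_mul_right hl0 (hl.trans h2)⟩
    obtain ⟨u', hu', hgu⟩ := hNB Φ g v v' p hp hp2 (key v hv).1 (key v' hv').1 (key v hv).2
      (key v' hv').2 hgv u hnb
    exact ⟨u', Ty.cons hp hp2 hv' hu', hgu⟩

end Pool.Agent.helper7.IG
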